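import Mathlib

namespace Pool.Agent.P.MP_27056a_lc

open MeasureTheory

/-- rotation by twice an irrational number is ergodic -/
theorem erg (a : ℝ) (ha : Irrational a) :
    Ergodic (fun t : UnitAddCircle => t + ((a : UnitAddCircle) + (a : UnitAddCircle))) := by
  rw [AddCircle.ergodic_add_right, ← AddCircle.coe_add, ← AddCircle.denseRange_zsmul_iff,
    AddCircle.denseRange_zsmul_coe_iff]
  have : (a + a) / 1 = (2 : ℕ) * a := by push_cast; ring
  rw [this]
  exact ha.natCast_mul (by norm_num)

/-- if `Q t + Q (t + a) = k` almost everywhere then `2 Q = k` almost everywhere -/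
theorem half (a : ℝ) (ha : Irrational a) (Q : UnitAddCircle → ℕ) (hQ : Measurable Q) (k : ℕ)
    (h : ∀ᵐ t : UnitAddCircle, Q t + Q (t + (a : UnitAddCircle)) = k) :
    ∀ᵐ t : UnitAddCircle, 2 * Q t = k := by
  have hmp : MeasurePreserving (fun t : UnitAddCircle => t + (a : UnitAddCircle)) :=
    measurePreserving_add_right _ _
  have h2 := hmp.quasiMeasurePreserving.ae h
  have h3 : (Q ∘ fun t : UnitAddCircle => t + ((a : UnitAddCircle) + (a : UnitAddCircle)))
      =ᵐ[volume] Q := by
    filter_upwards [h, h2] with t h1 h2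
    simp only [Function.comp]
    rw [add_assoc] at h2
    omega
  obtain ⟨c, hc⟩ := (erg a ha).ae_eq_const_of_ae_eq_comp₀ hQ.nullMeasurable h3
  have hc2 := hmp.quasiMeasurePreserving.ae hc
  filter_upwards [h, hc, hc2] with t h1 h2 h3
  simp only [Function.const] at h2 h3
  omega

/-- the core obstruction on the circle -/
theorem core (a b : ℝ) (ha : Irrational a) (hb : Irrational b) (P : UnitAddCircle → ℕ)
    (hP : Measurable P)
    (h : ∀ t, P t + P (t + (a : UnitAddCircle)) + P (t + (b : UnitAddCircle))
      + P (t + (a : UnitAddCircle) + (b : UnitAddCircle)) = 2) : False := by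
  have hQ : Measurable (fun t : UnitAddCircle => P t + P (t + (b : UnitAddCircle))) :=
    hP.add (hP.comp (measurable_add_const _))
  have h1 := half a ha _ hQ 2 (Filter.Eventually.of_forall fun t => by
    have := h t
    omega)
  have h2 := half b hb P hP 1 (by
    filter_upwards [h1] with t ht
    omega)
  obtain ⟨t, ht⟩ := h2.exists
  omega

theorem indep (m n k : ℤ) (h : (m : ℝ) * √2 + (n : ℝ) * √3 = k) : m = 0 ∧ n = 0 := by
  have h2 : Irrational (√2) := irrational_sqrt_two
  have h3 : Irrational (√3) := by
    simpa using (Nat.Prime.irrational_sqrt (p := 3) (by norm_num))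
  have h6 : Irrational (√6) := by
    have : Irrational (√(6 : ℕ)) := by
      rw [irrational_sqrt_natCast_iff]
      decide +kernel
    simpa using this
  have s2 : √2 * √2 = 2 := Real.mul_self_sqrt (by norm_num)
  have s3 : √3 * √3 = 3 := Real.mul_self_sqrt (by norm_num)
  have s6 : √2 * √3 = √6 := by
    rw [← Real.sqrt_mul (by norm_num)]; norm_num
  have hmn : m * n = 0 := by
    by_contra hne
    have e : ((2 * (m * n) : ℤ) : ℝ) * √6 = ((k * k - 2 * m * m - 3 * n * n : ℤ) : ℝ) := by
      push_cast
      rw [← h, ← s6]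
      linear_combination (-(m : ℝ) * m) * s2 - ((n : ℝ) * n) * s3
    have := h6.intCast_mul (m := 2 * (m * n)) (by omega)
    rw [e] at this
    exact Int.not_irrational _ this
  rcases mul_eq_zero.1 hmn with hm | hn
  · subst hm
    refine ⟨rfl, ?_⟩
    by_contra hn
    have := h3.intCast_mul (m := n) hn
    have e : (n : ℝ) * √3 = k := by simpa using h
    rw [e] at this
    exact Int.not_irrational _ this
  · subst hn
    refine ⟨?_, rfl⟩
    by_contra hm
    have := h2.intCast_mul (m := m) hm
    have e : (m : ℝ) * √2 = k := by simpa using h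
    rw [e] at this
    exact Int.not_irrational _ this

/-- the space -/
abbrev Sp (n : ℕ) : Type := ZMod 2 × UnitAddCircle × (Fin n → ℤ)

/-- the homomorphism giving the action -/
noncomputable def phi (n : ℕ) : (Fin (n + 2) → ℤ) →+ Sp n where
  toFun g := (((g 0 + g 1 : ℤ) : ZMod 2), (((g 0 : ℝ) * √2 + (g 1 : ℝ) * √3 : ℝ) : UnitAddCircle),
    fun j => g j.succ.succ)
  map_zero' := by
    ext <;> simp
  map_add' g h := by
    ext
    · simp only [Pi.add_apply, Prod.fst_add]; push_cast; ring
    · simp only [Pi.add_apply, Prod.snd_add, Prod.fst_add]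
      rw [← AddCircle.coe_add]; congr 1; push_cast; ring
    · simp

theorem phi_inj (n : ℕ) (g : Fin (n + 2) → ℤ) (h : phi n g = 0) : g = 0 := by
  have h1 : (((g 0 : ℝ) * √2 + (g 1 : ℝ) * √3 : ℝ) : UnitAddCircle) = 0 :=
    congrArg (fun p : Sp n => p.2.1) h
  have h2 : (fun j : Fin n => g j.succ.succ) = 0 := congrArg (fun p : Sp n => p.2.2) h
  rw [AddCircle.coe_eq_zero_iff] at h1
  obtain ⟨k, hk⟩ := h1
  have := indep (g 0) (g 1) k (by rw [← hk]; simp)
  funext i
  refine Fin.cases this.1 (fun i => ?_) i
  refine Fin.cases this.2 (fun j => ?_) i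
  exact congrFun h2 j

/-- the action -/
@[reducible] noncomputable def act (n : ℕ) : AddAction (Fin (n + 2) → ℤ) (Sp n) where
  vadd g x := phi n g + x
  zero_vadd x := by
    change phi n 0 + x = x
    simp
  add_vadd g h x := by
    change phi n (g + h) + x = phi n g + (phi n h + x)
    rw [map_add, add_assoc]

/-- the two-colourings -/
def col (n : ℕ) (i : Fin (n + 2)) (x : Sp n) : ZMod 2 :=
  Fin.cases x.1 (fun i => Fin.cases x.1 (fun j => ((x.2.2 j : ℤ) : ZMod 2)) i) i

theorem col_meas (n : ℕ) (i : Fin (n + 2)) : Measurable (col n i) := by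
  refine Fin.cases ?_ (fun i => ?_) i
  · exact measurable_fst
  refine Fin.cases ?_ (fun j => ?_) i
  · exact measurable_fst
  · change Measurable (fun x : Sp n => ((x.2.2 j : ℤ) : ZMod 2))
    exact (measurable_from_top (f := fun z : ℤ => (z : ZMod 2))).comp
      ((measurable_pi_apply j).comp (measurable_snd.comp measurable_snd))

theorem col_step (n : ℕ) (i : Fin (n + 2)) (x : Sp n) :
    col n i (phi n (Pi.single i 1) + x) = col n i x + 1 := by
  refine Fin.cases ?_ (fun i => ?_) i
  · simp [col, phi, add_comm]
  refine Fin.cases ?_ (fun j => ?_) i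
  · change (phi n (Pi.single (Fin.succ 0) 1) + x).1 = x.1 + 1
    simp [phi, add_comm]
  · simp [col, phi, add_comm]

theorem col_inv (n : ℕ) (j : Fin n) (i : Fin (n + 2)) (hi : i ≠ j.succ.succ) (x : Sp n) :
    col n j.succ.succ (phi n (Pi.single i 1) + x) = col n j.succ.succ x := by
  simp [col, phi, Pi.single_eq_of_ne hi.symm]

/-- the vector of zeros and ones given by a Boolean vector -/
def vec {d : ℕ} (e : Fin d → Bool) : Fin d → ℤ := fun i => if e i then 1 else 0

theorem no_poly (n : ℕ) (c : Sp n → Fin (2 ^ (n + 2))) (hc : Measurable c)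
    (h : ∀ (x : Sp n) (k : Fin (2 ^ (n + 2))), ∃ e : Fin (n + 2) → ℤ,
      (∀ i, e i = 0 ∨ e i = 1) ∧ c (phi n e + x) = k) : False := by
  classical
  let k0 : Fin (2 ^ (n + 2)) := ⟨0, by positivity⟩
  let f : Sp n → ℕ := fun x => if c x = k0 then 1 else 0
  have hf : Measurable f := by
    exact (measurable_from_top (f := fun k : Fin (2 ^ (n + 2)) => if k = k0 then 1 else 0)).comp hc
  have hsum : ∀ x : Sp n, ∑ e : Fin (n + 2) → Bool, f (phi n (vec e) + x) = 1 := by
    intro x
    have hsurj : Function.Surjective (fun e : Fin (n + 2) → Bool => c (phi n (vec e) + x)) := by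
      intro k
      obtain ⟨e, he, hk⟩ := h x k
      refine ⟨fun i => decide (e i = 1), ?_⟩
      have : vec (fun i => decide (e i = 1)) = e := by
        funext i
        rcases he i with h0 | h1
        · simp [vec, h0]
        · simp [vec, h1]
      simp only [this, hk]
    have hbij : Function.Bijective (fun e : Fin (n + 2) → Bool => c (phi n (vec e) + x)) := by
      rw [Fintype.bijective_iff_surjective_and_card]
      exact ⟨hsurj, by simp⟩
    have := (Equiv.ofBijective _ hbij).sum_comp (fun k => if k = k0 then 1 else 0)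
    simp only [Equiv.ofBijective_apply] at this
    simp only [f]
    rw [this]
    simp
  let F : ZMod 2 → UnitAddCircle → ℕ := fun s t => ∑ e : Fin n → Bool, f (s, t, vec e)
  have hF : ∀ s, Measurable (F s) := by
    intro s
    refine Finset.measurable_sum _ (fun e _ => hf.comp ?_)
    exact measurable_const.prodMk (measurable_id.prodMk measurable_const)
  have hFs : ∀ s t, F s t + F (s + 1) (t + ((√2 : ℝ) : UnitAddCircle))
      + F (s + 1) (t + ((√3 : ℝ) : UnitAddCircle))
      + F s (t + ((√2 : ℝ) : UnitAddCircle) + ((√3 : ℝ) : UnitAddCircle)) = 1 := by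
    intro s t
    have := hsum (s, t, 0)
    rw [← (Fin.consEquiv (fun _ : Fin (n + 2) => Bool)).sum_comp, Fintype.sum_prod_type] at this
    simp only [← (Fin.consEquiv (fun _ : Fin (n + 1) => Bool)).sum_comp, Fintype.sum_prod_type,
      Fintype.sum_bool] at this
    have key : ∀ (a b : Bool) (e : Fin n → Bool),
        phi n (vec ((Fin.consEquiv (fun _ : Fin (n + 2) => Bool))
          (a, (Fin.consEquiv (fun _ : Fin (n + 1) => Bool)) (b, e)))) + (s, t, 0)
        = (s + (if a then 1 else 0) + (if b then 1 else 0),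
           t + (if a then ((√2 : ℝ) : UnitAddCircle) else 0)
             + (if b then ((√3 : ℝ) : UnitAddCircle) else 0), vec e) := by
      intro a b e
      ext
      · cases a <;> cases b <;> simp [phi, vec, Fin.consEquiv] <;> ring
      · cases a <;> cases b <;> simp [phi, vec, Fin.consEquiv] <;> abel
      · simp [phi, vec, Fin.consEquiv]
    simp only [key] at this
    have e2 : s + 1 + 1 = s := by
      rw [add_assoc]
      have : (1 + 1 : ZMod 2) = 0 := by decide
      rw [this, add_zero]
    simp only [if_true, Bool.false_eq_true, if_false, add_zero, e2] at this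
    simp only [F]
    omega
  have h3 : Irrational (√3) := by
    simpa using (Nat.Prime.irrational_sqrt (p := 3) (by norm_num))
  refine core (√2) (√3) irrational_sqrt_two h3 (fun t => F 0 t + F 1 t) ((hF 0).add (hF 1)) ?_
  intro t
  have a0 := hFs 0 t
  have a1 := hFs 1 t
  have e1 : (0 + 1 : ZMod 2) = 1 := by decide
  have e2 : (1 + 1 : ZMod 2) = 0 := by decide
  rw [e1] at a0
  rw [e2] at a1
  omega

theorem act_meas (n : ℕ) :
    Measurable (fun p : (Fin (n + 2) → ℤ) × Sp n => phi n p.1 + p.2) := by
  refine measurable_from_prod_countable_right (fun g => ?_)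
  exact measurable_const_add (phi n g)

end Pool.Agent.P.MP_27056a_lc
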