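import Mathlib

/-! Tilings of `ℤ ^ 3` by cubes of side two, read on the orbits of an action. -/

namespace Pool.Agent.P.MP_27056a_lc.D3

/-- The acting group. -/
abbrev G : Type := Fin 3 → ℤ

/-- A multiple of a generator. -/
abbrev s (i : Fin 3) (n : ℤ) : G := Pi.single i n

variable {X : Type} [AddAction G X]

/-- The position bits of a tiling. -/
structure Til (b : Fin 3 → X → Prop) : Prop where
  fl : ∀ i x, b i (s i 1 +ᵥ x) ↔ ¬ b i x
  ru : ∀ i j x, j ≠ i → b i x → (b j (s i 1 +ᵥ x) ↔ b j x)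

/-- `b i` is constant on the line through `x` in direction `j`. -/
def L (b : Fin 3 → X → Prop) (i j : Fin 3) (x : X) : Prop := ∀ t : ℤ, b i (s j t +ᵥ x) ↔ b i x

/-- `b i` is constant on some line of the orbit in direction `j`. -/
def P (b : Fin 3 → X → Prop) (i j : Fin 3) (x : X) : Prop := ∃ g : G, L b i j (g +ᵥ x)

/-- `b i` is constant on lines in both other directions. -/
def E (b : Fin 3 → X → Prop) (i : Fin 3) (x : X) : Prop := ∀ j, j ≠ i → P b i j x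

/-- The value on the constant lines in the plane of `x`. -/
def V (b : Fin 3 → X → Prop) (i : Fin 3) (x : X) : Prop :=
  ∃ j, j ≠ i ∧ ∃ g : G, g i = 0 ∧ L b i j (g +ᵥ x) ∧ b i (g +ᵥ x)

/-- The corrected bits. -/
def Q (b : Fin 3 → X → Prop) (i : Fin 3) (x : X) : Prop :=
  (E b i x ∧ V b i x) ∨ (¬ E b i x ∧ b i x)

theorem s_add (i : Fin 3) (m n : ℤ) (x : X) : s i (m + n) +ᵥ x = s i m +ᵥ (s i n +ᵥ x) := by
  rw [← add_vadd, ← Pi.single_add]

theorem s_zero (i : Fin 3) (x : X) : s i 0 +ᵥ x = x := by rw [s, Pi.single_zero, zero_vadd]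

theorem comm (g h : G) (x : X) : g +ᵥ (h +ᵥ x) = h +ᵥ (g +ᵥ x) := by
  rw [← add_vadd, ← add_vadd, add_comm]

theorem third : ∀ i j : Fin 3, j ≠ i → ∃ l, l ≠ i ∧ l ≠ j := by decide

theorem three : ∀ i j l : Fin 3, j ≠ i → l ≠ i → l ≠ j → ∀ m, m = i ∨ m = j ∨ m = l := by decide

variable {b : Fin 3 → X → Prop} {i j l : Fin 3} {x y : X}

theorem L_of_step (h : ∀ t : ℤ, b i (s j 1 +ᵥ (s j t +ᵥ x)) ↔ b i (s j t +ᵥ x)) : L b i j x := by
  intro t
  induction t using Int.induction_on with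
  | zero => rw [s_zero]
  | succ n ih => rw [add_comm, s_add, h, ih]
  | pred n ih => rw [← h, ← s_add, add_sub_cancel, ih]

theorem P_inv (g : G) : P b i j (g +ᵥ x) ↔ P b i j x :=
  ⟨fun ⟨h, k⟩ => ⟨h + g, by rwa [add_vadd]⟩,
    fun ⟨h, k⟩ => ⟨h - g, by rwa [← add_vadd, sub_add_cancel]⟩⟩

theorem E_inv (g : G) : E b i (g +ᵥ x) ↔ E b i x :=
  forall₂_congr fun _ _ => P_inv g

theorem V_inv (h : l ≠ i) : V b i (s l 1 +ᵥ x) ↔ V b i x := by
  have e : s l 1 i = 0 := Pi.single_eq_of_ne h.symm 1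
  constructor
  · rintro ⟨j, hj, g, g0, k⟩
    exact ⟨j, hj, g + s l 1, by rw [Pi.add_apply, g0, e, add_zero], by rwa [add_vadd]⟩
  · rintro ⟨j, hj, g, g0, k⟩
    exact ⟨j, hj, g - s l 1, by rw [Pi.sub_apply, g0, e, sub_zero],
      by rwa [← add_vadd, sub_add_cancel]⟩

theorem meet (hj : j ≠ i) (hl : l ≠ i) (hlj : l ≠ j) {g g' : G} (g0 : g i = 0) (g0' : g' i = 0)
    (k : L b i j (g +ᵥ x)) (k' : L b i l (g' +ᵥ x)) : b i (g +ᵥ x) ↔ b i (g' +ᵥ x) := by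
  have e : s j (g' j - g j) + g = s l (g l - g' l) + g' := by
    funext m
    rcases three i j l hj hl hlj m with rfl | rfl | rfl
    · simp [hj.symm, hl.symm, g0, g0']
    · simp [hlj.symm]
    · simp [hlj]
  rw [← k (g' j - g j), ← k' (g l - g' l), ← add_vadd, ← add_vadd, e]

namespace Til

variable (h : Til b)
include h

theorem mv (e : b i x ↔ b i y) (n : ℤ) : b i (s i n +ᵥ x) ↔ b i (s i n +ᵥ y) := by
  induction n using Int.induction_on with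
  | zero => rwa [s_zero, s_zero]
  | succ n ih => rw [add_comm, s_add, s_add, h.fl, h.fl, ih]
  | pred n ih => rw [← not_iff_not, ← h.fl, ← h.fl, ← s_add, ← s_add, add_sub_cancel, ih]

theorem L_mv (k : L b i j x) (n : ℤ) : L b i j (s i n +ᵥ x) := fun t => by
  rw [comm]
  exact h.mv (k t) n

theorem chg (hj : j ≠ i) (k : ¬ (b j (s i 1 +ᵥ x) ↔ b j x)) : L b i j x := by
  have : ∀ t, ¬ b i (s j t +ᵥ x) := fun t a => k (by
    have := h.mv (h.ru i j _ hj a) (-t)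
    rwa [comm (s i 1), ← s_add, ← s_add, neg_add_cancel, s_zero, s_zero] at this)
  exact fun t => iff_of_false (this t) (s_zero j x ▸ this 0)

theorem plane (hj : j ≠ i) (y : X) :
    (∀ m n : ℤ, b i (s j 1 +ᵥ ((s i m + s j n) +ᵥ y)) ↔ b i ((s i m + s j n) +ᵥ y)) ∨
      ∀ m n : ℤ, b j (s i 1 +ᵥ ((s i m + s j n) +ᵥ y)) ↔ b j ((s i m + s j n) +ᵥ y) := by
  refine or_iff_not_imp_right.2 fun k m' n' => ?_
  obtain ⟨m, k⟩ := not_forall.1 k
  obtain ⟨n, k⟩ := not_forall.1 k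
  have q := h.L_mv (h.chg hj k) (m' - m)
  have e : (s i m' + s j n') +ᵥ y = s j (n' - n) +ᵥ (s i (m' - m) +ᵥ ((s i m + s j n) +ᵥ y)) := by
    rw [← add_vadd, ← add_vadd, s, s, s, s, s, s, Pi.single_sub, Pi.single_sub]
    congr 1
    abel
  rw [e, ← s_add, q, q]

theorem P0 (k : P b i j x) : ∃ g : G, g i = 0 ∧ L b i j (g +ᵥ x) := by
  obtain ⟨g, k⟩ := k
  exact ⟨s i (-g i) + g, by simp, by rw [add_vadd]; exact h.L_mv k _⟩

theorem same (e : E b i x) (hj : j ≠ i) (hl : l ≠ i) {g g' : G} (g0 : g i = 0) (g0' : g' i = 0)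
    (k : L b i j (g +ᵥ x)) (k' : L b i l (g' +ᵥ x)) : b i (g +ᵥ x) ↔ b i (g' +ᵥ x) := by
  by_cases c : l = j
  · subst c
    obtain ⟨m, m1, m2⟩ := third i l hj
    obtain ⟨u, u0, u1⟩ := h.P0 (e m m1)
    exact (meet hj m1 m2 g0 u0 k u1).trans (meet hj m1 m2 g0' u0 k' u1).symm
  · exact meet hj hl c g0 g0' k k'

theorem V_fl (e : E b i x) : V b i (s i 1 +ᵥ x) ↔ ¬ V b i x := by
  constructor
  · rintro ⟨j, hj, g, g0, k1, k2⟩ ⟨l, hl, g', g0', k1', k2'⟩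
    rw [comm] at k1 k2
    have k3 := h.L_mv k1 (-1)
    rw [← s_add, neg_add_cancel, s_zero] at k3
    exact (h.fl _ _).1 k2 ((h.same e hj hl g0 g0' k3 k1').2 k2')
  · intro k
    obtain ⟨j, hj⟩ := exists_ne i
    obtain ⟨g, g0, k1⟩ := h.P0 (e j hj)
    refine ⟨j, hj, g, g0, ?_⟩
    rw [comm]
    exact ⟨h.L_mv k1 1, (h.fl _ _).2 fun a => k ⟨j, hj, g, g0, k1, a⟩⟩

theorem step (hj : j ≠ i) (k : ¬ P b i j x) (g : G) :
    b j (s i 1 +ᵥ (g +ᵥ x)) ↔ b j (g +ᵥ x) := by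
  by_contra c
  exact k ⟨g, h.chg hj c⟩

theorem line (hj : j ≠ i) (k : ¬ P b i j x) (g : G) : L b j i (g +ᵥ x) :=
  L_of_step fun t => by
    rw [← add_vadd _ g]
    exact h.step hj k _

theorem two (hj : j ≠ i) (k : ¬ P b i j x) : P b j i x := ⟨0, h.line hj k 0⟩

theorem cyc (hj : j ≠ i) (hl : i ≠ l) (k1 : ¬ P b i j x) (k2 : ¬ P b j l x) : P b l i x := by
  by_contra k3
  refine k1 ⟨0, L_of_step fun t => ?_⟩
  by_contra c
  rw [← add_vadd _ (0 : G)] at c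
  have : ∀ u, ¬ b j (s l u +ᵥ ((s j t + 0) +ᵥ x)) := fun u a => c (by
    have := h.ru j i _ hj.symm a
    rwa [comm (s j 1), ← add_vadd (s j 1), h.line hl k3 _ u, h.line hl k3 _ u, add_vadd (s j 1)]
      at this)
  exact k2 ⟨_, fun u => iff_of_false (this u) (s_zero l ((s j t + 0) +ᵥ x) ▸ this 0)⟩

theorem exE (x : X) : ∃ i, E b i x := by
  by_contra c
  have k : ∀ i, ∃ j, j ≠ i ∧ ¬ P b i j x := fun i => by
    by_contra a
    exact c ⟨i, fun j hj => by_contra fun a' => a ⟨j, hj, a'⟩⟩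
  obtain ⟨j, hj, k1⟩ := k 0
  obtain ⟨l, hl, k2⟩ := k j
  have h0 : 0 ≠ l := by
    rintro rfl
    exact k2 (h.two hj k1)
  obtain ⟨m, hm, k3⟩ := k l
  rcases three 0 j l hj h0.symm hl m with rfl | rfl | rfl
  · exact k3 (h.cyc hj h0 k1 k2)
  · exact k3 (h.two hl k2)
  · exact hm rfl

theorem Q_fl (i : Fin 3) (x : X) : Q b i (s i 1 +ᵥ x) ↔ ¬ Q b i x := by
  by_cases e : E b i x
  · simp only [Q, E_inv, e, h.V_fl e, true_and, not_true, false_and, or_false]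
  · simp only [Q, E_inv, e, h.fl, true_and, not_false_iff, false_and, false_or]

omit h in
theorem Q_inv (e : E b i x) (hl : l ≠ i) : Q b i (s l 1 +ᵥ x) ↔ Q b i x := by
  simp only [Q, E_inv, e, V_inv hl, true_and, not_true, false_and, or_false]

theorem Q_plane (hj : j ≠ i) (y : X) :
    (∀ m n : ℤ, Q b i (s j 1 +ᵥ ((s i m + s j n) +ᵥ y)) ↔ Q b i ((s i m + s j n) +ᵥ y)) ∨
      ∀ m n : ℤ, Q b j (s i 1 +ᵥ ((s i m + s j n) +ᵥ y)) ↔ Q b j ((s i m + s j n) +ᵥ y) := by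
  by_cases e : E b i y
  · exact Or.inl fun m n => Q_inv ((E_inv _).2 e) hj
  by_cases e' : E b j y
  · exact Or.inr fun m n => Q_inv ((E_inv _).2 e') hj.symm
  simpa only [Q, E_inv, e, e', true_and, not_false_iff, false_and, false_or] using h.plane hj y

end Til

theorem Q_meas [MeasurableSpace X] (hm : ∀ g : G, Measurable fun x : X => g +ᵥ x)
    (hb : ∀ i, Measurable (b i)) (i : Fin 3) : Measurable (Q b i) := by
  have hL : ∀ j (g : G), Measurable fun x => L b i j (g +ᵥ x) := fun j g =>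
    Measurable.forall fun t => ((hb i).comp ((hm _).comp (hm g))).iff ((hb i).comp (hm g))
  have hE : Measurable (E b i) :=
    Measurable.forall fun j => measurable_const.imp (Measurable.exists (hL j))
  have hV : Measurable (V b i) :=
    Measurable.exists fun j => measurable_const.and (Measurable.exists fun g =>
      measurable_const.and ((hL j g).and ((hb i).comp (hm g))))
  exact (hE.and hV).or (hE.not.and (hb i))

/-- The position bits of the points of colour `0`. -/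
def bit (c : X → Fin (2 ^ 3)) (i : Fin 3) (x : X) : Prop :=
  ∃ e : G, (∀ l, e l = 0 ∨ e l = 1) ∧ e i = 1 ∧ c (e +ᵥ x) = 0

theorem til_bit {c : X → Fin (2 ^ 3)}
    (hc : ∀ x k, ∃ e : G, (∀ l, e l = 0 ∨ e l = 1) ∧ c (e +ᵥ x) = k) : Til (bit c) := by
  have cu : ∀ e : G, (∀ l, e l = 0 ∨ e l = 1) → ∃ a : Fin 3 → Fin 2, (fun l => (a l : ℤ)) = e := by
    intro e he
    refine ⟨fun l => if e l = 0 then 0 else 1, funext fun l => ?_⟩
    rcases he l with k | k <;> simp [k]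
  have uq : ∀ (x : X) (e e' : G), (∀ l, e l = 0 ∨ e l = 1) → (∀ l, e' l = 0 ∨ e' l = 1) →
      c (e +ᵥ x) = c (e' +ᵥ x) → e = e' := fun x e e' he he' k => by
    obtain ⟨a, rfl⟩ := cu e he
    obtain ⟨a', rfl⟩ := cu e' he'
    have : Function.Injective fun a : Fin 3 → Fin 2 => c (((fun l => (a l : ℤ)) : G) +ᵥ x) :=
      (Finite.injective_iff_surjective_of_equiv finFunctionFinEquiv).2 fun k => by
        obtain ⟨e, he, r⟩ := hc x k
        obtain ⟨a, rfl⟩ := cu e he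
        exact ⟨a, r⟩
    rw [this k]
  choose t t1 t2 using fun x => hc x 0
  have hb : ∀ i x, bit c i x ↔ t x i = 1 := fun i x =>
    ⟨fun ⟨e, h1, h2, h3⟩ => uq x e _ h1 (t1 x) (h3.trans (t2 x).symm) ▸ h2,
      fun k => ⟨t x, t1 x, k, t2 x⟩⟩
  have k1 : ∀ i x, t x i = 1 → t (s i 1 +ᵥ x) = t x - s i 1 := fun i x k => by
    refine uq (s i 1 +ᵥ x) _ _ (t1 _) (fun l => ?_) (by rw [t2, ← add_vadd, sub_add_cancel, t2])
    by_cases e : l = i
    · simp [e, k]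
    · simpa [e] using t1 x l
  have k2 : ∀ i x, t (s i 1 +ᵥ x) i = 0 → t x = t (s i 1 +ᵥ x) + s i 1 := fun i x k => by
    refine uq x _ _ (t1 _) (fun l => ?_) (by rw [t2, add_vadd, t2])
    by_cases e : l = i
    · simp [e, k]
    · simpa [e] using t1 _ l
  refine ⟨fun i x => ?_, fun i j x hj k => ?_⟩
  · rw [hb, hb]
    refine ⟨fun a a' => ?_, fun a => (t1 _ i).resolve_left fun a' => a ?_⟩
    · rw [k1 i x a'] at a
      simp [a'] at a
    · rw [k2 i x a']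
      simp [a']
  · rw [hb, hb, k1 i x ((hb _ _).1 k)]
    simp [hj]

theorem rainbow {c : Fin 3 → X → Fin 2} (h1 : ∀ i x, c i (s i 1 +ᵥ x) ≠ c i x) (x : X)
    (h2 : ∀ g : G, ∀ j, j ≠ i → c i (s j 1 +ᵥ (g +ᵥ x)) = c i (g +ᵥ x))
    (h3 : ∀ j l, j ≠ l → ∀ y : X,
      (∀ m n : ℤ, c j (s l 1 +ᵥ ((s j m + s l n) +ᵥ y)) = c j ((s j m + s l n) +ᵥ y)) ∨
        ∀ m n : ℤ, c l (s j 1 +ᵥ ((s j m + s l n) +ᵥ y)) = c l ((s j m + s l n) +ᵥ y))
    (a : Fin 3 → Fin 2) : ∃ e : G, (∀ l, e l = 0 ∨ e l = 1) ∧ (fun l => c l (e +ᵥ x)) = a := by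
  have f2 : ∀ u v w : Fin 2, u ≠ v → v ≠ w → u = w := by decide
  have st : ∀ i (y : X), ∃ n : ℤ, (n = 0 ∨ n = 1) ∧ c i (s i n +ᵥ y) = a i := fun i y => by
    by_cases k : c i y = a i
    · exact ⟨0, Or.inl rfl, by rwa [s_zero]⟩
    · exact ⟨1, Or.inr rfl, f2 _ _ _ (h1 i y) k⟩
  have iv : ∀ {i j} {y : X} {n : ℤ}, (n = 0 ∨ n = 1) → c i (s j 1 +ᵥ y) = c i y →
      c i (s j n +ᵥ y) = c i y := by
    rintro i j y n (rfl | rfl) k
    · rw [s_zero]
    · exact k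
  obtain ⟨n1, p1, q1⟩ := st i x
  obtain ⟨j, l, hj, hl, hlj, k⟩ : ∃ j l, j ≠ i ∧ l ≠ i ∧ l ≠ j ∧ ∀ m : ℤ,
      c j (s l 1 +ᵥ (s j m +ᵥ (s i n1 +ᵥ x))) = c j (s j m +ᵥ (s i n1 +ᵥ x)) := by
    obtain ⟨j, hj⟩ := exists_ne i
    obtain ⟨l, hl, hlj⟩ := third i j hj
    rcases h3 j l hlj.symm (s i n1 +ᵥ x) with k | k
    · exact ⟨j, l, hj, hl, hlj, fun m => by simpa using k m 0⟩
    · exact ⟨l, j, hl, hj, hlj.symm, fun m => by simpa using k 0 m⟩
  obtain ⟨n2, p2, q2⟩ := st j (s i n1 +ᵥ x)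
  obtain ⟨n3, p3, q3⟩ := st l (s j n2 +ᵥ (s i n1 +ᵥ x))
  refine ⟨s l n3 + (s j n2 + s i n1), fun m => ?_, funext fun m => ?_⟩
  · rcases three i j l hj hl hlj m with rfl | rfl | rfl
    · simpa [hj.symm, hl.symm] using p1
    · simpa [hj, hlj.symm] using p2
    · simpa [hl, hlj] using p3
  · rcases three i j l hj hl hlj m with rfl | rfl | rfl
    · rw [add_vadd, iv p3 (h2 _ l hl), add_vadd, iv p2 (h2 _ j hj), q1]
    · rw [add_vadd, add_vadd, iv p3 (k n2), q2]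
    · rw [add_vadd, add_vadd, q3]

end Pool.Agent.P.MP_27056a_lc.D3
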