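import Pool.Agent.P.MP_27056a_lc.Core

/-! An ergodic probability measure preserving example. -/

namespace Pool.Agent.P.MP_27056a_lc

open MeasureTheory
open scoped ENNReal

/-- iterating `half` over all directions -/
theorem half_iter (d : ℕ) : ∀ (a : Fin d → ℝ), (∀ i, Irrational (a i)) →
    ∀ (P : UnitAddCircle → ℕ), Measurable P → ∀ k : ℕ,
    (∀ᵐ t : UnitAddCircle, ∑ e : Fin d → Bool,
      P (t + ∑ i, if e i then ((a i : ℝ) : UnitAddCircle) else 0) = k) →
    ∀ᵐ t : UnitAddCircle, 2 ^ d * P t = k := by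
  induction d with
  | zero =>
    intro a _ P _ k h
    simpa using h
  | succ d ih =>
    intro a ha P hP k h
    have hQ : Measurable (fun t : UnitAddCircle => P t + P (t + ((a 0 : ℝ) : UnitAddCircle))) :=
      hP.add (hP.comp (measurable_add_const _))
    have h1 := ih (fun i => a i.succ) (fun i => ha _) _ hQ k (by
      filter_upwards [h] with t ht
      rw [← (Fin.consEquiv (fun _ : Fin (d + 1) => Bool)).sum_comp, Fintype.sum_prod_type,
        Fintype.sum_bool] at ht
      rw [Finset.sum_add_distrib, add_comm, ← ht]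
      congr 1
      · refine Finset.sum_congr rfl fun e _ => ?_
        congr 1
        simp only [Fin.consEquiv, Equiv.coe_fn_mk, Fin.sum_univ_succ, Fin.cons_zero, Fin.cons_succ,
          if_true]
        abel
      · refine Finset.sum_congr rfl fun e _ => ?_
        congr 1
        simp [Fin.consEquiv, Fin.sum_univ_succ])
    have h2 := half (a 0) (ha 0) (fun t => 2 ^ d * P t) (hP.const_mul _) k (by
      filter_upwards [h1] with t ht
      rw [← ht]; ring)
    filter_upwards [h2] with t ht
    rw [← ht]; ring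

/-- a transcendental number -/
noncomputable def tau : ℝ := liouvilleNumber 2

theorem tau_tr : Transcendental ℤ tau := transcendental_liouvilleNumber (m := 2) le_rfl

/-- the rotation angles -/
noncomputable def ang {d : ℕ} (i : Fin d) : ℝ := tau ^ ((i : ℕ) + 1)

theorem ang_indep {d : ℕ} (g : Fin d → ℤ) (k : ℤ) (h : ∑ i, (g i : ℝ) * ang i = k) : g = 0 := by
  have hp := transcendental_iff.1 tau_tr
    (∑ i : Fin d, Polynomial.monomial ((i : ℕ) + 1) (g i) - Polynomial.C k) (by
      simp only [map_sub, map_sum, Polynomial.aeval_monomial, Polynomial.aeval_C]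
      simp only [ang] at h
      simp [h])
  funext j
  have := congrArg (fun p => Polynomial.coeff p ((j : ℕ) + 1)) hp
  simp only [Polynomial.coeff_sub, Polynomial.finsetSum_coeff, Polynomial.coeff_monomial,
    Polynomial.coeff_C_succ, sub_zero, Polynomial.coeff_zero, add_left_inj, Fin.val_inj] at this
  simpa using this

theorem ang_irr {d : ℕ} (i : Fin d) : Irrational (ang i) := by
  rintro ⟨q, hq⟩
  have := ang_indep (Pi.single i (q.den : ℤ)) q.num (by
    rw [Finset.sum_eq_single i]
    · rw [← hq]
      simp only [Pi.single_eq_same]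
      exact_mod_cast Rat.den_mul_eq_num q
    · intro j _ hj
      simp [Pi.single_eq_of_ne hj]
    · simp)
  have h2 := congrFun this i
  simp at h2

/-- the space -/
abbrev Sq (n : ℕ) : Type := UnitAddCircle × (Fin (n + 1) → ZMod 2)

/-- the coordinate flipped by a generator -/
def pr (n : ℕ) (i : Fin (n + 2)) : Fin (n + 1) := Fin.cases 0 id i

/-- the translations by the generators -/
noncomputable def gen (n : ℕ) (i : Fin (n + 2)) : Sq n :=
  (((ang i : ℝ) : UnitAddCircle), Pi.single (pr n i) 1)

/-- the homomorphism giving the action -/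
noncomputable def psi (n : ℕ) (g : Fin (n + 2) → ℤ) : Sq n := ∑ i, g i • gen n i

theorem psi_add (n : ℕ) (g h : Fin (n + 2) → ℤ) : psi n (g + h) = psi n g + psi n h := by
  simp [psi, add_smul, Finset.sum_add_distrib]

theorem psi_single (n : ℕ) (i : Fin (n + 2)) (m : ℤ) : psi n (Pi.single i m) = m • gen n i := by
  unfold psi
  rw [Finset.sum_eq_single i]
  · simp
  · intro j _ hj
    simp [Pi.single_eq_of_ne hj]
  · simp

theorem psi_fst (n : ℕ) (g : Fin (n + 2) → ℤ) :
    (psi n g).1 = ((∑ i, (g i : ℝ) * ang i : ℝ) : UnitAddCircle) := by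
  simp only [psi, Prod.fst_sum, Prod.smul_fst, gen, ← zsmul_eq_mul]
  exact (map_sum (QuotientAddGroup.mk' (AddSubgroup.zmultiples (1 : ℝ))) _ _).symm

theorem psi_inj (n : ℕ) (g : Fin (n + 2) → ℤ) (h : psi n g = 0) : g = 0 := by
  have h1 := psi_fst n g
  rw [h] at h1
  obtain ⟨k, hk⟩ := (AddCircle.coe_eq_zero_iff _).1 h1.symm
  exact ang_indep g k (by rw [← hk]; simp)

/-- the action -/
@[reducible] noncomputable def act2 (n : ℕ) : AddAction (Fin (n + 2) → ℤ) (Sq n) where
  vadd g x := psi n g + x
  zero_vadd x := by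
    change psi n 0 + x = x
    simp [psi]
  add_vadd g h x := by
    change psi n (g + h) + x = psi n g + (psi n h + x)
    rw [psi_add, add_assoc]

theorem act2_meas (n : ℕ) :
    Measurable (fun p : (Fin (n + 2) → ℤ) × Sq n => psi n p.1 + p.2) := by
  refine measurable_from_prod_countable_right (fun g => ?_)
  exact measurable_const_add (psi n g)

/-- the invariant measure -/
noncomputable def mu (n : ℕ) : Measure (Sq n) :=
  (volume : Measure UnitAddCircle).prod
    ((Fintype.card (Fin (n + 1) → ZMod 2) : ℝ≥0∞)⁻¹ • Measure.count)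

instance (n : ℕ) : IsProbabilityMeasure
    ((Fintype.card (Fin (n + 1) → ZMod 2) : ℝ≥0∞)⁻¹ •
      (Measure.count : Measure (Fin (n + 1) → ZMod 2))) := by
  constructor
  rw [Measure.smul_apply, Measure.count_univ, smul_eq_mul, ENat.card_eq_coe_fintype_card]
  exact ENNReal.inv_mul_cancel (by simp) (by simp)

instance mu_prob (n : ℕ) : IsProbabilityMeasure (mu n) := by
  have : IsProbabilityMeasure (volume : Measure UnitAddCircle) := ⟨by simp⟩
  unfold mu
  infer_instance

instance mu_inv (n : ℕ) : (mu n).IsAddLeftInvariant := by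
  unfold mu
  infer_instance

theorem psi_dense (n : ℕ) : DenseRange (psi n) := by
  intro x
  have hd : DenseRange (fun m : ℤ => m • (((ang (0 : Fin (n + 2)) + ang (0 : Fin (n + 2)) : ℝ)) :
      UnitAddCircle)) := by
    rw [AddCircle.denseRange_zsmul_coe_iff]
    have : (ang (0 : Fin (n + 2)) + ang (0 : Fin (n + 2))) / 1 = (2 : ℕ) * ang (0 : Fin (n + 2)) := by
      push_cast; ring
    rw [this]
    exact (ang_irr _).natCast_mul (by norm_num)
  let g : Fin (n + 2) → ℤ := Fin.cons 0 (fun j => ((x.2 j).val : ℤ))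
  have hg : (psi n g).2 = x.2 := by
    funext j
    simp only [psi, Prod.snd_sum, Prod.smul_snd, gen, Finset.sum_apply, Pi.smul_apply]
    rw [Fin.sum_univ_succ, Finset.sum_eq_single j]
    · simp [g, pr]
    · intro i _ hi
      simp [pr, Pi.single_eq_of_ne hi.symm]
    · simp
  have hc : Continuous (fun t : UnitAddCircle => ((psi n g).1 + t, x.2) : UnitAddCircle → Sq n) := by
    fun_prop
  have hx : x = ((psi n g).1 + (x.1 - (psi n g).1), x.2) := by simp
  rw [hx]
  refine map_mem_closure (f := fun t : UnitAddCircle => (((psi n g).1 + t, x.2) : Sq n)) hc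
    (hd (x.1 - (psi n g).1)) ?_
  rintro _ ⟨m, rfl⟩
  refine ⟨g + Pi.single 0 (m + m), ?_⟩
  rw [psi_add, psi_single]
  refine Prod.ext ?_ ?_
  · simp only [Prod.fst_add, Prod.smul_fst, gen, AddCircle.coe_add, add_smul, smul_add]
  · simp only [Prod.snd_add, Prod.smul_snd, hg, add_eq_left, add_smul]
    funext j
    exact CharTwo.add_self_eq_zero _

theorem erg2 (n : ℕ) :
    @ErgodicVAdd (Fin (n + 2) → ℤ) (Sq n) (act2 n).toVAdd _ (mu n) := by
  let := act2 n
  have : AddAction.IsMinimal (Fin (n + 2) → ℤ) (Sq n) := ⟨fun x =>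
    (Homeomorph.addRight x).surjective.denseRange.comp (psi_dense n)
      (Homeomorph.addRight x).continuous⟩
  have : VAddAssocClass (Fin (n + 2) → ℤ) (Sq n) (Sq n) := ⟨fun g x y => add_assoc _ _ _⟩
  have : MeasurableAdd₂ (Sq n) := inferInstance
  have : MeasurableNeg (Sq n) := inferInstance
  have : SFinite (mu n) := inferInstance
  have : ErgodicVAdd (Sq n) (Sq n) (mu n) := instErgodicVAddOfIsAddLeftInvariant
  exact ErgodicVAdd.trans_isMinimal (mu n) (Sq n)

/-- the two-colourings -/
def col2 (n : ℕ) (i : Fin (n + 2)) (x : Sq n) : ZMod 2 := x.2 (pr n i)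

theorem col2_meas (n : ℕ) (i : Fin (n + 2)) : Measurable (col2 n i) :=
  (measurable_pi_apply _).comp measurable_snd

theorem col2_step (n : ℕ) (i : Fin (n + 2)) (x : Sq n) :
    col2 n i (psi n (Pi.single i 1) + x) = col2 n i x + 1 := by
  simp [col2, psi_single, gen, add_comm]

theorem col2_inv (n : ℕ) (j : Fin n) (i : Fin (n + 2)) (hi : i ≠ j.succ.succ) (x : Sq n) :
    col2 n j.succ.succ (psi n (Pi.single i 1) + x) = col2 n j.succ.succ x := by
  have : pr n j.succ.succ ≠ pr n i := by
    revert hi
    refine Fin.cases ?_ (fun i => ?_) i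
    · intro _
      exact Fin.succ_ne_zero j
    · intro hi h
      exact hi (congrArg Fin.succ h).symm
  simp [col2, psi_single, gen, Pi.single_eq_of_ne this]

theorem no_poly2 (n : ℕ) (c : Sq n → Fin (2 ^ (n + 2))) (hc : Measurable c)
    (h : ∀ᵐ x ∂mu n, ∀ k : Fin (2 ^ (n + 2)), ∃ e : Fin (n + 2) → ℤ,
      (∀ i, e i = 0 ∨ e i = 1) ∧ c (psi n e + x) = k) : False := by
  classical
  let k0 : Fin (2 ^ (n + 2)) := ⟨0, by positivity⟩
  let f : Sq n → ℕ := fun x => if c x = k0 then 1 else 0
  have hf : Measurable f :=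
    (measurable_from_top (f := fun k : Fin (2 ^ (n + 2)) => if k = k0 then 1 else 0)).comp hc
  have hsum : ∀ᵐ x ∂mu n, ∑ e : Fin (n + 2) → Bool, f (psi n (vec e) + x) = 1 := by
    filter_upwards [h] with x hx
    have hsurj : Function.Surjective (fun e : Fin (n + 2) → Bool => c (psi n (vec e) + x)) := by
      intro k
      obtain ⟨e, he, hk⟩ := hx k
      refine ⟨fun i => decide (e i = 1), ?_⟩
      have : vec (fun i => decide (e i = 1)) = e := by
        funext i
        rcases he i with h0 | h1
        · simp [vec, h0]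
        · simp [vec, h1]
      simp only [this, hk]
    have hbij : Function.Bijective (fun e : Fin (n + 2) → Bool => c (psi n (vec e) + x)) := by
      rw [Fintype.bijective_iff_surjective_and_card]
      exact ⟨hsurj, by simp⟩
    have := (Equiv.ofBijective _ hbij).sum_comp (fun k => if k = k0 then 1 else 0)
    simp only [Equiv.ofBijective_apply] at this
    simp only [f]
    rw [this]
    simp
  have hsum2 : ∀ᵐ t : UnitAddCircle, ∀ v : Fin (n + 1) → ZMod 2,
      ∑ e : Fin (n + 2) → Bool, f (psi n (vec e) + (t, v)) = 1 := by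
    filter_upwards [Measure.ae_ae_of_ae_prod hsum] with t ht
    exact Measure.ae_count_iff.1 ((Measure.absolutelyContinuous_smul (by simp)).ae_le ht)
  let P : UnitAddCircle → ℕ := fun t => ∑ v : Fin (n + 1) → ZMod 2, f (t, v)
  have hP : Measurable P :=
    Finset.measurable_sum _ (fun v _ => hf.comp (measurable_id.prodMk measurable_const))
  have h1 := half_iter (n + 2) ang ang_irr P hP (2 ^ (n + 1)) (by
    filter_upwards [hsum2] with t ht
    have e1 : ∑ v : Fin (n + 1) → ZMod 2, ∑ e : Fin (n + 2) → Bool,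
        f (psi n (vec e) + (t, v)) = 2 ^ (n + 1) := by
      simp [ht]
    rw [Finset.sum_comm] at e1
    rw [← e1]
    refine Finset.sum_congr rfl fun e _ => ?_
    have e2 : (psi n (vec e)).1 = ∑ i, if e i then ((ang i : ℝ) : UnitAddCircle) else 0 := by
      simp only [psi, Prod.fst_sum, Prod.smul_fst, gen, vec]
      refine Finset.sum_congr rfl fun i _ => ?_
      split_ifs <;> simp
    simp only [P]
    rw [← Equiv.sum_comp (Equiv.addLeft (psi n (vec e)).2)]
    refine Finset.sum_congr rfl fun v _ => ?_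
    congr 1
    refine Prod.ext ?_ rfl
    simp only [Prod.fst_add, e2]
    exact add_comm _ _)
  obtain ⟨t, ht⟩ := h1.exists
  have : 2 ^ (n + 1) * (2 * P t) = 2 ^ (n + 1) * 1 := by
    rw [mul_one, ← mul_assoc, ← pow_succ, ht]
  have := Nat.eq_of_mul_eq_mul_left (by positivity) this
  omega

end Pool.Agent.P.MP_27056a_lc
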